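import Pool.Agent.Y283.NK.Stm

/-!
NK-INV (project NK of helper283): bound for the inverse of `1 - t A`.
-/

set_option autoImplicit false

namespace Pool.Agent.Y907.NK

open MeasureTheory Set Metric Filter Topology
open scoped InnerProductSpace ENNReal NNReal
open Pool.Agent.Y283.NK

/-- the determinant of a rank one perturbation -/
theorem det_rank_one {n : ℕ} (M : Matrix (Fin n) (Fin n) ℂ) (c b v : Fin n → ℂ)
    (h : M.mulVec c = b) : (M + Matrix.vecMulVec b v).det = M.det * (1 + v ⬝ᵥ c) := by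
  have h1 : M + Matrix.vecMulVec b v = M * (1 + Matrix.vecMulVec c v) := by
    rw [mul_add, mul_one, Matrix.mul_vecMulVec, h]
  rw [h1, Matrix.det_mul, Matrix.vecMulVec_eq (Fin 1),
    Matrix.det_one_add_replicateCol_mul_replicateRow]

/-- bound for determinants -/
theorem det_le (hDET : S_DET) (E : Type) [NormedAddCommGroup E] [InnerProductSpace ℂ E] (n : ℕ)
    (p q : Fin n → E) : ‖((1 : Matrix (Fin n) (Fin n) ℂ) -
      Matrix.of (fun i j => ⟪q i, p j⟫_ℂ)).det‖ ≤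
        Real.exp (Real.sqrt (∑ j, ‖p j‖ ^ 2) * Real.sqrt (∑ i, ‖q i‖ ^ 2)) := by
  obtain ⟨μ, h1, h2⟩ := hDET E n p q
  have h3 := h1 1
  rw [one_smul] at h3
  rw [h3, norm_prod]
  calc ∏ k, ‖1 - 1 * μ k‖ ≤ ∏ k, Real.exp ‖μ k‖ := by
        refine Finset.prod_le_prod (fun _ _ => norm_nonneg _) fun k _ => ?_
        have h4 : ‖1 - 1 * μ k‖ ≤ ‖(1 : ℂ)‖ + ‖μ k‖ := by
          rw [one_mul]
          exact norm_sub_le _ _
        rw [norm_one] at h4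
        have h5 := Real.add_one_le_exp ‖μ k‖
        linarith
    _ = Real.exp (∑ k, ‖μ k‖) := (Real.exp_sum _ _).symm
    _ ≤ _ := Real.exp_le_exp.2 h2

theorem main (hDET : S_DET) : S_INV := by
  intro E _ _ n p q t b c hdet hMc
  obtain ⟨M, hM⟩ : ∃ M : Matrix (Fin n) (Fin n) ℂ,
    M = 1 - t • Matrix.of (fun i j => ⟪q i, p j⟫_ℂ) := ⟨_, rfl⟩
  rw [← hM] at hdet hMc ⊢
  obtain ⟨γ, hγ⟩ : ∃ γ : ℝ, γ = Real.sqrt (∑ i, ‖c i‖ ^ 2) := ⟨_, rfl⟩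
  obtain ⟨β, hβ⟩ : ∃ β : ℝ, β = Real.sqrt (∑ i, ‖b i‖ ^ 2) := ⟨_, rfl⟩
  obtain ⟨S, hS⟩ : ∃ S : ℝ, S = Real.sqrt ((‖t‖ ^ 2 * ∑ j, ‖p j‖ ^ 2 + 1) *
    (∑ i, ‖q i‖ ^ 2 + 1)) := ⟨_, rfl⟩
  rw [← hγ, ← hβ, ← hS]
  have hβ0 : 0 ≤ β := by rw [hβ]; exact Real.sqrt_nonneg _
  have hγ0 : 0 ≤ γ := by rw [hγ]; exact Real.sqrt_nonneg _
  have hdet0 : 0 < ‖M.det‖ := norm_pos_iff.2 hdet
  have hcs : 0 ≤ ∑ i, ‖c i‖ ^ 2 := Finset.sum_nonneg fun _ _ => sq_nonneg _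
  have hbs : 0 ≤ ∑ i, ‖b i‖ ^ 2 := Finset.sum_nonneg fun _ _ => sq_nonneg _
  have hγ2 : γ ^ 2 = ∑ i, ‖c i‖ ^ 2 := by rw [hγ, Real.sq_sqrt hcs]
  have hβ2 : β ^ 2 = ∑ i, ‖b i‖ ^ 2 := by rw [hβ, Real.sq_sqrt hbs]
  rcases hγ0.lt_or_eq with hγp | hγz
  swap
  · rw [← hγz]
    positivity
  have hβp : 0 < β := by
    rcases hβ0.lt_or_eq with h | h
    · exact h
    · exfalso
      have hb : b = 0 := by
        rw [← h] at hβ2
        have h1 : ∑ i, ‖b i‖ ^ 2 = 0 := by rw [← hβ2]; norm_num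
        rw [Finset.sum_eq_zero_iff_of_nonneg (fun _ _ => sq_nonneg _)] at h1
        funext i
        have := h1 i (Finset.mem_univ i)
        rw [Pi.zero_apply]
        exact norm_eq_zero.1 (pow_eq_zero_iff two_ne_zero |>.1 this)
      have hc : c = 0 := by
        rw [hb] at hMc
        exact Matrix.eq_zero_of_mulVec_eq_zero hdet hMc
      rw [hc] at hγ2
      simp at hγ2
      linarith
  -- the perturbed matrix
  obtain ⟨b', hb'⟩ : ∃ b' : Fin n → ℂ, b' = fun i => b i / (β : ℂ) := ⟨_, rfl⟩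
  obtain ⟨c', hc'⟩ : ∃ c' : Fin n → ℂ, c' = fun i => c i / (β : ℂ) := ⟨_, rfl⟩
  obtain ⟨v, hv⟩ : ∃ v : Fin n → ℂ, v = fun i => (starRingEnd ℂ) (c i / (γ : ℂ)) := ⟨_, rfl⟩
  have hMc' : M.mulVec c' = b' := by
    have h1 : c' = ((β : ℂ)⁻¹) • c := by
      rw [hc']; funext i; rw [Pi.smul_apply, smul_eq_mul, div_eq_mul_inv, mul_comm]
    have h2 : b' = ((β : ℂ)⁻¹) • b := by
      rw [hb']; funext i; rw [Pi.smul_apply, smul_eq_mul, div_eq_mul_inv, mul_comm]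
    rw [h1, h2, Matrix.mulVec_smul, hMc]
  have hvc : v ⬝ᵥ c' = ((γ / β : ℝ) : ℂ) := by
    have h1 : v ⬝ᵥ c' = ∑ i, ((‖c i‖ ^ 2 : ℝ) : ℂ) * ((γ : ℂ)⁻¹ * (β : ℂ)⁻¹) := by
      unfold dotProduct
      refine Finset.sum_congr rfl fun i _ => ?_
      rw [hv, hc']
      simp only [map_div₀, Complex.conj_ofReal]
      have h2 : (starRingEnd ℂ) (c i) * c i = ((‖c i‖ ^ 2 : ℝ) : ℂ) := by
        rw [Complex.conj_mul']
        push_cast
        rfl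
      rw [← h2]
      ring
    rw [h1, ← Finset.sum_mul, ← Complex.ofReal_sum, ← hγ2]
    have h3 : (γ : ℂ) ≠ 0 := by exact_mod_cast hγp.ne'
    have h4 : (β : ℂ) ≠ 0 := by exact_mod_cast hβp.ne'
    push_cast
    field_simp
  have hd := det_rank_one M c' b' v hMc'
  rw [hvc] at hd
  -- the perturbed matrix as a Gram matrix
  have hG : M + Matrix.vecMulVec b' v = (1 : Matrix (Fin n) (Fin n) ℂ) -
      Matrix.of (fun i j => ⟪(WithLp.toLp 2 (q i, -(starRingEnd ℂ) (b' i)) : WithLp 2 (E × ℂ)),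
        (WithLp.toLp 2 (t • p j, v j) : WithLp 2 (E × ℂ))⟫_ℂ) := by
    ext i j
    rw [hM]
    simp only [Matrix.add_apply, Matrix.sub_apply, Matrix.smul_apply, Matrix.of_apply,
      Matrix.vecMulVec_apply, smul_eq_mul, WithLp.prod_inner_apply, inner_smul_right,
      RCLike.inner_apply, map_neg, Complex.conj_conj]
    ring
  have hle := det_le hDET (WithLp 2 (E × ℂ)) n (fun j => WithLp.toLp 2 (t • p j, v j))
    (fun i => WithLp.toLp 2 (q i, -(starRingEnd ℂ) (b' i)))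
  rw [← hG, hd] at hle
  have hP : ∑ j, ‖(WithLp.toLp 2 (t • p j, v j) : WithLp 2 (E × ℂ))‖ ^ 2 =
      ‖t‖ ^ 2 * ∑ j, ‖p j‖ ^ 2 + 1 := by
    have h1 : ∀ j, ‖(WithLp.toLp 2 (t • p j, v j) : WithLp 2 (E × ℂ))‖ ^ 2 =
        ‖t‖ ^ 2 * ‖p j‖ ^ 2 + ‖c j‖ ^ 2 / γ ^ 2 := by
      intro j
      rw [WithLp.prod_norm_sq_eq_of_L2]
      show ‖t • p j‖ ^ 2 + ‖v j‖ ^ 2 = _
      rw [norm_smul, mul_pow, hv]
      simp only [RCLike.norm_conj, norm_div, Complex.norm_real, Real.norm_eq_abs, div_pow, sq_abs]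
    simp only [h1]
    rw [Finset.sum_add_distrib, ← Finset.mul_sum, ← Finset.sum_div, ← hγ2,
      div_self (by positivity)]
  have hQ : ∑ i, ‖(WithLp.toLp 2 (q i, -(starRingEnd ℂ) (b' i)) : WithLp 2 (E × ℂ))‖ ^ 2 =
      ∑ i, ‖q i‖ ^ 2 + 1 := by
    have h1 : ∀ i, ‖(WithLp.toLp 2 (q i, -(starRingEnd ℂ) (b' i)) : WithLp 2 (E × ℂ))‖ ^ 2 =
        ‖q i‖ ^ 2 + ‖b i‖ ^ 2 / β ^ 2 := by
      intro i
      rw [WithLp.prod_norm_sq_eq_of_L2]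
      show ‖q i‖ ^ 2 + ‖-(starRingEnd ℂ) (b' i)‖ ^ 2 = _
      rw [norm_neg, RCLike.norm_conj, hb']
      simp only [norm_div, Complex.norm_real, Real.norm_eq_abs, div_pow, sq_abs]
    simp only [h1]
    rw [Finset.sum_add_distrib, ← Finset.sum_div, ← hβ2, div_self (by positivity)]
  rw [hP, hQ, ← Real.sqrt_mul (by positivity), ← hS, norm_mul] at hle
  have hn : ‖(1 : ℂ) + ((γ / β : ℝ) : ℂ)‖ = 1 + γ / β := by
    have : (1 : ℂ) + ((γ / β : ℝ) : ℂ) = ((1 + γ / β : ℝ) : ℂ) := by push_cast; ring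
    rw [this, Complex.norm_real, Real.norm_eq_abs, abs_of_pos (by positivity)]
  rw [hn] at hle
  have h5 : 1 + γ / β ≤ Real.exp S / ‖M.det‖ := by
    rw [le_div_iff₀ hdet0, mul_comm]
    exact hle
  have h6 : γ / β ≤ 1 + Real.exp S / ‖M.det‖ := by linarith
  rw [div_le_iff₀ hβp] at h6
  linarith

end Pool.Agent.Y907.NK
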